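import Pool.Agent.Run7.h153.DG.Defs
set_option autoImplicit false

/-!
Beilinson's regulator on the integral part of `K_2` of the hyperelliptic curves `X : z + 1/z = F(x)`,
that is, `y² = F(x)² - 4`, of genus `g = deg F - 1`, for monic polynomials `F` with integral
coefficients in a number field `k`: for a complex embedding `σ` of `k` and all number fields `L ⊇ k`
which contain certain algebraic integers `c_0, ..., c_{2 g}`, the projection of the regulator
`K_2(X_L)_ℤ ⊗ ℝ → ⊕_τ H¹(X_τ, ℝ(1))` to the component of each embedding `τ` over `σ` with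
`τ(c_m) = b_m` is surjective. (If `L` is normal over `k`, this holds for all `τ` over `σ`.)

The classes are the symbols `{z, (x - c) / (x - c')}`, where `F(c)` and `F(c')` are of the form
`ζ + 1/ζ` with roots of unity `ζ`. There is no smallness condition: the only polynomials which are
excluded are those for which `X_σ` is singular, and those of the form `F^σ = A(u)` with a real
polynomial `A` of degree at least `2` such that all solutions of `A = t` are real for all `t` in
`(-2, 2)`.
-/

namespace Pool.Agent.Run7.h153.Kept.ArchimedeanComponents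

open Polynomial

open Pool.Agent.TH826.MK (KQ symb Torus Unramified)

open Pool.Agent.TH826.HD

open Pool.Agent.Run7.h153.DG (period toLp main_loops exists_lift_ext per_eq isIntegral_of_tors
  Admissible LoopsOff AllUnramified RegulatorsIndependent)

universe u v w

/-- Let `k` be a field (a number field), and let `F` be a monic polynomial of degree `g + 1` over `k`
whose coefficients are algebraic integers. Let `σ` be a complex embedding of `k` with
`F^σ(ξ) ≠ ± 2` for all zeros `ξ` of the derivative of `F^σ`. The coordinate ring `PRing F` of the plane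
curve `X : z² - F(x) z + 1 = 0` is a domain, and the complex curve `X_σ` is smooth.

Let `T` be a nonempty set of complex numbers `p` such that `F^σ(p)` is real, `-2 < F^σ(p) < 2` and `p`
is not a critical point of `F^σ`. Suppose that `T` contains for each representation `F^σ = A(u)` with a
real polynomial `A` of degree at least `2` and a complex polynomial `u` a point `p` for which `u(p)` is
not real (if `F^σ` has no such representation, every `T ≠ ∅` is allowed; if `F^σ` is real and
indecomposable, `T = {p}` with a point `p` which lies on no line of symmetry of `F^σ`). Let `r > 0`, and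
let `Γ_1, ..., Γ_d` be loops (`1`-dimensional tori) in the complex points of `X_σ` which avoid the
branch points (`z² ≠ 1`) and the discs `|x - p| < r`, `p ∈ T`, such that the vectors of the periods
`∫_{Γ_l} x ^ j dx / y`, `0 ≤ j < g`, `y = 2 z - F(x)`, of the holomorphic differentials are linearly
independent over `ℝ`, that is, such that the loops are independent in `H_1(X_σ, ℝ)` (for example `2 g`
loops which represent a basis of the homology).

There are algebraic integers `b_0, ..., b_d` in these discs with `F^σ(b_m) = ζ_m + 1/ζ_m` for roots of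
unity `ζ_m`, with the following property. Let `L` be an extension of `k`, let `τ` be a complex embedding
of `L` over `σ`, and let `c_m` be elements of `L` with `τ(c_m) = b_m`. Then the symbols
`{z, (x - c_m) / (x - c_l)}` in `K_2` of the open part `∏_m (x - c_m) ≠ 0` of the curve `X_L` over `L`
have an image in `K_2(M) ⊗ ℚ` which is unramified at ALL discrete valuations of `M`, for all fields `M`
with a homomorphism from the ring of the open part (in particular for the function field `L(X)`), and
the determinant of the regulators of the `d` symbols `{z, (x - c_k) / (x - c_0)}`, `1 ≤ k ≤ d`, at the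
place `τ` on the loops `Γ_l` (considered as loops in the complex points over `τ` of the open part) does
not vanish. -/
theorem result (g : ℕ) (k : Type u) [Field k] (F : k[X]) (hm : F.Monic)
    (hint : ∀ i, IsIntegral ℤ (F.coeff i)) (hdeg : F.natDegree = g + 1) (σ : k →+* ℂ)
    (hsm : ∀ ξ : ℂ, (derivative (F.map σ)).eval ξ = 0 → (F.map σ).eval ξ ^ 2 ≠ 4) :
    IsDomain (PRing F) ∧
    (∀ x z : ℂ, z ^ 2 - (F.map σ).eval x * z + 1 = 0 →
      2 * z - (F.map σ).eval x ≠ 0 ∨ (derivative (F.map σ)).eval x * z ≠ 0) ∧
    ∀ (T : Set ℂ) (r : ℝ), Admissible (F.map σ) T → 0 < r →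
      ∀ (d : ℕ) (Γ : Fin d → Torus (PRing F) 1), LoopsOff σ T r Γ →
      LinearIndependent ℝ (fun l (j : Fin g) => period σ (Γ l) j) →
      ∃ b : Fin (d + 1) → ℂ,
        (∀ m, IsIntegral ℤ (b m) ∧ (∃ p ∈ T, ‖b m - p‖ < r) ∧
          ∃ (ζ : ℂ) (n : ℕ), n ≠ 0 ∧ ζ ^ n = 1 ∧ (F.map σ).eval (b m) = ζ + ζ⁻¹) ∧
        ∀ (L : Type v) [Field L] (ι : k →+* L) (τ : L →+* ℂ) (c : Fin (d + 1) → L),
          τ.comp ι = σ → (∀ m, τ (c m) = b m) →
          AllUnramified.{v, w} (F.map ι) c ∧ RegulatorsIndependent Γ (F.map ι) τ c := by
  have hP : 0 < F.natDegree := by omega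
  have hPσ : (F.map σ).natDegree = g + 1 := by rw [natDegree_map, hdeg]
  refine ⟨isDomain_PRing hP, ?_, ?_⟩
  · intro x z h
    by_contra hcon
    push Not at hcon
    obtain ⟨h1, h2⟩ := hcon
    have hz : z ≠ 0 := by
      rintro rfl
      simp at h
    have h3 : (derivative (F.map σ)).eval x = 0 := (mul_eq_zero.1 h2).resolve_right hz
    refine hsm x h3 ?_
    have h4 : (F.map σ).eval x = 2 * z := by linear_combination -h1
    rw [h4] at h ⊢
    linear_combination (-4) * h
  · intro T r hA hr d Γ hΓa hind
    obtain ⟨hT, hTP, hdec⟩ := hA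
    obtain ⟨hΓ, hav⟩ := hΓa
    have hg : (F.map σ).natDegree - 1 = g := by omega
    set Λ : Fin d → Pool.Agent.Run7.h153.DG.Lp (F.map σ) := fun l =>
      toLp (σ := σ) (hΓ l) (fun θ => (hav l θ).1) with hΛ
    obtain ⟨b, hb1, hb2⟩ := main_loops (P := F.map σ) (by omega) hsm Λ hT hr hTP
      (fun p hp l s => (hav l _).2 p hp) hdec (by
        have h4 : LinearIndependent ℝ fun (l : Fin d)
            (j : Fin ((F.map σ).natDegree - 1)) => period σ (Γ l) j := by
          rw [hg]
          exact hind
        convert h4 using 3 with l j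
        exact per_eq (hΓ l) (fun θ => (hav l θ).1) j)
    have hne : ∀ l t m, (Λ l).X t ≠ b m := by
      intro l t m h
      obtain ⟨⟨p, hp, hbp⟩, -⟩ := hb1 m
      have h5 : r ≤ ‖(Λ l).X t - p‖ := (hav l _).2 p hp
      rw [h, ← dist_eq_norm] at h5
      exact absurd (Metric.mem_ball.1 hbp) (not_lt.2 h5)
    refine ⟨b, fun m => ⟨?_, ?_, (hb1 m).2⟩, ?_⟩
    · refine isIntegral_of_tors (hm.map σ) (by omega) (fun i => ?_) (hb1 m).2
      rw [coeff_map]
      exact map_isIntegral_int σ (hint i)
    · obtain ⟨⟨p, hp, hbp⟩, -⟩ := hb1 m
      exact ⟨p, hp, by rw [← dist_eq_norm]; exact hbp⟩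
    · intro L _ ι τ c hτ hc
      have hF : (F.map ι).map τ = F.map σ := by rw [Polynomial.map_map, hτ]
      have hci : ∀ m, IsIntegral ℤ (c m) := by
        intro m
        have h1 : IsIntegral ℤ (b m) := by
          refine isIntegral_of_tors (hm.map σ) (by omega) (fun i => ?_) (hb1 m).2
          rw [coeff_map]
          exact map_isIntegral_int σ (hint i)
        rw [← hc m] at h1
        exact (isIntegral_algHom_iff (τ.toIntAlgHom) τ.injective).1 h1
      refine ⟨?_, ?_⟩
      · intro M _ f m l
        refine Pool.Agent.TH826.UH.symb_mem_unramified f τ (fun i => ?_) hci m l fun m => ?_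
        · rw [coeff_map]
          exact map_isIntegral_int ι (hint i)
        · obtain ⟨ζ, n, hn, hζ, hβ⟩ := (hb1 m).2
          refine ⟨ζ, n, hn, hζ, ?_⟩
          rw [← hβ, ← hF, ← hc m]
          exact ((Polynomial.eval_map τ (τ (c m))).trans (eval₂_at_apply τ (c m))).symm
      · have hne' : ∀ l t m, (Λ l).X t ≠ τ (c m) := by
          intro l t m
          rw [hc m]
          exact hne l t m
        choose Γ' hΓ1 hΓ2 using fun l => exists_lift_ext (Λ l) hF (c := c) (hne' l)
        refine ⟨Γ', fun l θ => ⟨(hΓ1 l θ).1, ?_, ?_⟩, ?_⟩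
        · rw [(hΓ1 l θ).2.1]
          have hθ : (fun _ => θ 0 : Fin 1 → ℝ) = θ := by
            funext i
            rw [Subsingleton.elim i 0]
          show (Γ l).e (fun _ => θ 0) (ppol F X) = _
          rw [hθ]
        · rw [(hΓ1 l θ).2.2]
          have hθ : (fun _ => θ 0 : Fin 1 → ℝ) = θ := by
            funext i
            rw [Subsingleton.elim i 0]
          show (Γ l).e (fun _ => θ 0) (pz F) = _
          rw [hθ]
        · convert hb2 using 2
          ext l k
          rw [Matrix.of_apply, Matrix.of_apply, hΓ2, hc, hc]

end Pool.Agent.Run7.h153.Kept.ArchimedeanComponents
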