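import Pool.Agent.Run7.h153.DG.Main
set_option autoImplicit false

/-!
Density of the regulator `H²(X, ℚ(2)) → H²_H(X, ℚ(2)) = H¹(X, ℂ/ℚ(2))` for the hyperelliptic curves
`X : z + 1/z = F(x)`, that is, `y² = F(x)² - 4`, for ALL polynomials `F` for which `X` is smooth, with
the exception of those of the form `F = A(u)` with a real polynomial `A` of degree at least `2` such
that all solutions of `A = t` are real for all `t` in `(-2, 2)`.

`H²_H(X, ℚ(2))` is the quotient of `H¹(X, ℂ)` by `H¹(X, ℚ(2))`, and the closure of a `ℚ`-subspace of a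
real vector space is a real subspace. So the density means that the real regulators of `K_2(X)` span
`H¹(X, ℝ(1))`, the space of the functionals on `H_1(X, ℝ)`, of dimension `2 g`. This is shown here, with
explicit classes: the symbols `{z, (x - b) / (x - b')}`, where `F(b)` and `F(b')` are of the form
`ζ + 1/ζ` with roots of unity `ζ` (then the tame symbols are torsion), and where `b` and `b'` may even
be restricted to arbitrary small discs around the points of a set `T` of points `p` with
`-2 < F(p) < 2`, which have to satisfy the following sharp condition: if `F = A(u)` with a real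
polynomial `A` of degree at least `2` and a complex polynomial `u`, then `u(p)` is not real for some
`p` in `T`. (If `u(p)` is real for all `p` in `T`, then `u` is real on the arcs of `F⁻¹(ℝ)` through the
points of `T`.) If `F` is not of this form, one arbitrary point `p` suffices; if `F` is real and
indecomposable, one point `p` which is not real and not on another line of symmetry of `F` suffices.

The proof. For a real combination `γ` of loops the regulator `ρ(β) = ∫_γ log|z| d arg(x - β) -
log|x - β| d arg z` is a harmonic function of `β` in the discs. If it is constant on the `b` as above,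
it is constant on arcs `c(t)` with `F(c(t)) = t`, and therefore the function `φ = f / F'`,
`f(β) = ∫_γ dlog z / (x - β)`, is real on the arcs. Then `R = F φ + (F² - 4) φ' / F'` is real on the
arcs as well, and it is a rational function with the denominator `F'³`. The rational functions which
are real on the arcs generate a field between `ℂ(F)` and `ℂ(x)`; by Lüroth's theorem and the condition
on `T` it is `ℂ(F)`. So `R` is a rational function of `F`. With
`h(β) = ∫_γ (F'(x) - F'(β)) / (x - β) dx / y`, a polynomial whose coefficients are periods, the order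
of `R` at a zero `ξ` of `F'` of order `m` is `-(2 m + 1 - ord h)`, if `ord h < m`, but the order of a
rational function of `F` is divisible by `m + 1`. So `F'` divides `h`, and hence `h = 0`: all periods
of holomorphic differentials vanish.
-/

namespace Pool.Agent.Run7.h153.Kept.GenericHyperelliptic

open Polynomial

open Pool.Agent.TH826.MK (KQ symb Torus)

open Pool.Agent.TH826.HD

open Pool.Agent.Run7.h153.DG (period toLp main_loops exists_lift per_eq)

/-- Let `F` be a complex polynomial of degree `g + 1` such that `F(ξ) ≠ ± 2` for the zeros `ξ` of `F'`.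
The coordinate ring `PRing F` of the plane curve `X : z² - F(x) z + 1 = 0` is a domain, and the curve is
smooth (the partial derivatives `2 z - F(x)` and `- F'(x) z` do not vanish simultaneously on it).

Let `T` be a nonempty set of complex numbers `p` such that `F(p)` is real, `-2 < F(p) < 2` and
`F'(p) ≠ 0`. Suppose that `T` contains for each representation `F = A(u)` with a real polynomial `A` of
degree at least `2` and a complex polynomial `u` a point `p` for which `u(p)` is not real. Let `r > 0`,
and let `Γ_1, ..., Γ_d` be loops (`1`-dimensional tori) in the complex points of `X` which avoid the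
branch points (`z² ≠ 1`) and the discs `|x - p| < r`, `p ∈ T`, such that the vectors of the periods
`∫_{Γ_l} x ^ j dx / y`, `0 ≤ j < g`, `y = 2 z - F(x)`, of the holomorphic differentials are linearly
independent over `ℝ`, that is, such that the loops are independent in `H_1(X, ℝ)` (for example `2 g`
loops which represent a basis of the homology).

There are `d + 1` complex numbers `b_0, ..., b_d` in the discs with `F(b_m) = ζ_m + 1/ζ_m` for
roots of unity `ζ_m` (they are algebraic if the coefficients of `F` are), such that the symbols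
`{z, (x - b_m) / (x - b_l)}` on the open part `∏_m (x - b_m) ≠ 0` of the curve are unramified at all
discrete valuations of the function field that are trivial on `ℂ`, and the determinant of the
regulators of the `d` symbols `{z, (x - b_k) / (x - b_0)}`, `1 ≤ k ≤ d`, on the loops `Γ_l`, considered
as loops `Γ'_l` in the open part, does not vanish. -/
theorem result (g : ℕ) (F : ℂ[X]) (hdeg : F.natDegree = g + 1)
    (hsm : ∀ ξ : ℂ, (derivative F).eval ξ = 0 → F.eval ξ ^ 2 ≠ 4) :
    IsDomain (PRing F) ∧
    (∀ x z : ℂ, z ^ 2 - F.eval x * z + 1 = 0 →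
      2 * z - F.eval x ≠ 0 ∨ (derivative F).eval x * z ≠ 0) ∧
    ∀ (T : Set ℂ) (r : ℝ), T.Nonempty → 0 < r →
      (∀ p ∈ T, (∃ t : ℝ, |t| < 2 ∧ F.eval p = t) ∧ (derivative F).eval p ≠ 0) →
      (∀ (A : ℝ[X]) (u : ℂ[X]), 2 ≤ A.natDegree → F = (A.map (algebraMap ℝ ℂ)).comp u →
        ∃ p ∈ T, (u.eval p).im ≠ 0) →
      ∀ (d : ℕ) (Γ : Fin d → Torus (PRing F) 1),
      (∀ l θ (c : ℂ), (Γ l).e θ (ppol F (C c)) = c) →
      (∀ l θ, (Γ l).e θ (pz F) ^ 2 ≠ 1 ∧ ∀ p ∈ T, r ≤ ‖(Γ l).e θ (ppol F X) - p‖) →
      LinearIndependent ℝ (fun l (j : Fin g) => period (RingHom.id ℂ) (Γ l) j) →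
      ∃ b : Fin (d + 1) → ℂ,
        (∀ m, (∃ p ∈ T, ‖b m - p‖ < r) ∧
          ∃ (ζ : ℂ) (k : ℕ), k ≠ 0 ∧ ζ ^ k = 1 ∧ F.eval (b m) = ζ + ζ⁻¹) ∧
        (∀ (L : Type*) [Field L] [Algebra (PRing F) L] [IsFractionRing (PRing F) L],
          ∃ f : POpen F b →+* L,
            (∀ r : PRing F, f (toP F b r) = algebraMap (PRing F) L r) ∧
            ∀ m l, KQ.map 2 f (symb (pent F b m l)) ∈ UnramifiedOver (f.comp (pcst F b)) 2) ∧
        ∃ Γ' : Fin d → Torus (POpen F b) 1,
          (∀ l θ (r : PRing F), (Γ' l).e θ (toP F b r) = (Γ l).e θ r) ∧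
          (Matrix.of fun l k : Fin d => (Γ' l).reg (symb (pent F b k.succ 0))).det ≠ 0 := by
  have hP : 0 < F.natDegree := by omega
  have hid : F.map (RingHom.id ℂ) = F := Polynomial.map_id
  refine ⟨isDomain_PRing hP, ?_, ?_⟩
  · intro x z h
    by_contra hcon
    push Not at hcon
    obtain ⟨h1, h2⟩ := hcon
    have hz : z ≠ 0 := by
      rintro rfl
      simp at h
    have h3 : (derivative F).eval x = 0 := (mul_eq_zero.1 h2).resolve_right hz
    refine hsm x h3 ?_
    have h4 : F.eval x = 2 * z := by linear_combination -h1
    rw [h4] at h ⊢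
    linear_combination (-4) * h
  · intro T r hT hr hTP hdec d Γ hΓ hav hind
    have h1 : 0 < (F.map (RingHom.id ℂ)).natDegree := by rwa [hid]
    have hg : (F.map (RingHom.id ℂ)).natDegree - 1 = g := by
      rw [hid]
      omega
    obtain ⟨b, hb1, hb2⟩ := main_loops h1 (by rw [hid]; exact hsm)
      (fun l => toLp (σ := RingHom.id ℂ) (hΓ l) (fun θ => (hav l θ).1)) hT hr
      (by rw [hid]; exact hTP) (fun p hp l s => (hav l _).2 p hp) (by rw [hid]; exact hdec) (by
        have h4 : LinearIndependent ℝ fun (l : Fin d)
            (j : Fin ((F.map (RingHom.id ℂ)).natDegree - 1)) =>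
            period (RingHom.id ℂ) (Γ l) j := by
          rw [hg]
          exact hind
        convert h4 using 3 with l j
        exact per_eq (hΓ l) (fun θ => (hav l θ).1) j)
    rw [hid] at hb1
    have hne : ∀ l θ m, (Γ l).e θ (ppol F X) ≠ b m := by
      intro l θ m h
      obtain ⟨⟨p, hp, hbp⟩, -⟩ := hb1 m
      have h5 := (hav l θ).2 p hp
      rw [h, ← dist_eq_norm] at h5
      exact absurd (Metric.mem_ball.1 hbp) (not_lt.2 h5)
    refine ⟨b, fun m => ⟨?_, (hb1 m).2⟩, ?_, ?_⟩
    · obtain ⟨⟨p, hp, hbp⟩, -⟩ := hb1 m
      exact ⟨p, hp, by rw [← dist_eq_norm]; exact hbp⟩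
    · intro E _ _ _
      have hinj : Function.Injective (algebraMap (PRing F) E) := IsFractionRing.injective _ _
      have hne' : algebraMap (PRing F) E (pDel F b) ≠ 0 := by
        rw [Ne, map_eq_zero_iff _ hinj]
        exact pDel_ne_zero b
      exact ⟨liftP (algebraMap (PRing F) E) hne', fun r => liftP_toP _ _ _, fun m l =>
        symb_mem_unramified _ m l fun m => (hb1 m).2⟩
    · choose Γ' hΓ1 hΓ2 using fun l => exists_lift (σ := RingHom.id ℂ) (hΓ l)
        (fun θ => (hav l θ).1) (b := b) (hne l)
      refine ⟨Γ', hΓ1, ?_⟩
      convert hb2 using 2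
      ext l k
      rw [Matrix.of_apply, Matrix.of_apply, hΓ2]
      rfl

end Pool.Agent.Run7.h153.Kept.GenericHyperelliptic
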